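import Pool.Agent.Helper43.HB.All
import Pool.Agent.Helper43.HC.DIVS
import Pool.Agent.Helper43.HC.UNQ
import Pool.Agent.Helper43.HC.FINS
import Pool.Agent.Helper43.HC.KIL
import Pool.Agent.Helper43.HC.SGN
import Pool.Agent.Helper43.HC.GRP
import Pool.Agent.Helper43.HC.STR
import Pool.Agent.Helper43.HC.SPL
import Pool.Agent.Helper43.HC.SYB
import Pool.Agent.Helper43.HC.EXT

/-!
# Project HC: assembly
-/

set_option autoImplicit false

namespace Pool.Agent.Helper43.HC

open Pool.Agent.Helper43.HA Pool.Agent.Helper43.HB

theorem divs_main : S_DIVS := DIVS.main pow_main (UL.main PP.main) LAW.main ORD.main ulq_main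

theorem unq_main : S_UNQ := UNQ.main ste_main ulq_main divs_main

theorem fins_main : S_FINS := FINS.main ste_main sym_main divs_main unq_main

universe u

theorem kil_main : S_KIL.{u} := KIL.main fins_main

theorem ext_main : S_EXT := EXT.main (GRP.main SGN.main) (STR.main SGN.main) SPL.main SYB.main

end Pool.Agent.Helper43.HC
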